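import Pool.Agent.Y113.MT.BStm

/-!
# Project MT: counting exceptional tuples
-/

set_option autoImplicit false

open Finset

namespace Pool.Agent.Y889.MT

open Classical in
/-- counting along one coordinate -/
theorem cnt {k : ℕ} (T : ℕ) (c : ℝ) (R : (Fin k → ℕ) → Prop) (i : Fin k)
    (h : ∀ σ : Fin k → ℕ, ({t : ℕ | t ≤ T ∧ R (Function.update σ i t)}.ncard : ℝ) ≤ c) :
    (((Fintype.piFinset (fun _ : Fin k => range (T + 1))).filter R).card : ℝ) ≤
      ((T : ℝ) + 1) ^ (k - 1) * c := by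
  obtain ⟨S, hS⟩ : ∃ S, S = (Fintype.piFinset (fun _ : Fin k => range (T + 1))).filter R :=
    ⟨_, rfl⟩
  obtain ⟨D, hD⟩ : ∃ D : Finset (Fin k → ℕ), D = Fintype.piFinset
    (fun j : Fin k => if j = i then ({0} : Finset ℕ) else range (T + 1)) := ⟨_, rfl⟩
  have hmaps : ∀ τ ∈ S, Function.update τ i 0 ∈ D := by
    intro τ hτ
    rw [hS, mem_filter, Fintype.mem_piFinset] at hτ
    rw [hD, Fintype.mem_piFinset]
    intro j
    by_cases hj : j = i
    · subst hj
      rw [if_pos rfl, Function.update_self]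
      exact mem_singleton_self 0
    · rw [if_neg hj, Function.update_of_ne hj]
      exact hτ.1 j
  have hcard : D.card = (T + 1) ^ (k - 1) := by
    rw [hD, Fintype.card_piFinset, ← mul_prod_erase univ _ (mem_univ i), if_pos rfl,
      card_singleton, one_mul]
    have : ∀ j ∈ univ.erase i, (if j = i then ({0} : Finset ℕ) else range (T + 1)).card = T + 1 := by
      intro j hj
      rw [if_neg (mem_erase.1 hj).1, card_range]
    rw [prod_congr rfl this, prod_const, card_erase_of_mem (mem_univ i), card_univ,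
      Fintype.card_fin]
  have h1 := Finset.card_eq_sum_card_fiberwise hmaps
  rw [← hS, h1]
  push_cast
  refine (Finset.sum_le_card_nsmul D _ c (fun σ _ => ?_)).trans_eq ?_
  · refine le_trans ?_ (h σ)
    have hfin : {t : ℕ | t ≤ T ∧ R (Function.update σ i t)}.Finite :=
      (Set.finite_Iic T).subset fun t ht => ht.1
    have h2 : (S.filter fun τ => Function.update τ i 0 = σ).card ≤
        {t : ℕ | t ≤ T ∧ R (Function.update σ i t)}.ncard := by
      rw [← Set.ncard_coe_finset]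
      have hup : ∀ τ : Fin k → ℕ, Function.update τ i 0 = σ → Function.update σ i (τ i) = τ := by
        intro τ hτ
        rw [← hτ, Function.update_idem, Function.update_eq_self]
      refine Set.ncard_le_ncard_of_injOn (fun τ => τ i) ?_ ?_ hfin
      · intro τ hτ
        rw [mem_coe, mem_filter] at hτ
        obtain ⟨hτ1, hτ2⟩ := hτ
        rw [hS, mem_filter, Fintype.mem_piFinset] at hτ1
        refine ⟨?_, ?_⟩
        · have := mem_range.1 (hτ1.1 i)
          show τ i ≤ T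
          omega
        · show R (Function.update σ i (τ i))
          rw [hup τ hτ2]
          exact hτ1.2
      · intro τ hτ τ' hτ' he
        rw [mem_coe, mem_filter] at hτ hτ'
        have he' : τ i = τ' i := he
        rw [← hup τ hτ.2, ← hup τ' hτ'.2, he']
    exact_mod_cast h2
  · rw [hcard, nsmul_eq_mul]
    push_cast
    ring

open Classical in
theorem ctk : Pool.Agent.Y113.MT.S_CTK := by
  intro k δ K hK
  refine ⟨((k : ℝ) ^ 2 + k) * 2 ^ (k - 1) * K, fun T hT P Q hP hQ => ?_⟩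
  have hT1 : (1 : ℝ) ≤ T := by exact_mod_cast hT
  have hT0 : (0 : ℝ) < T := by linarith
  rcases Nat.eq_zero_or_pos k with hk | hk
  · subst hk
    have h0 : {τ : Fin 0 → ℕ | (∀ i, τ i ≤ T) ∧ ((∃ i j, i ≠ j ∧ P (τ i) (τ j)) ∨
        ∃ i, Q (τ i))} = ∅ := by
      rw [Set.eq_empty_iff_forall_notMem]
      rintro τ ⟨-, ⟨i, -⟩ | ⟨i, -⟩⟩
      · exact i.elim0
      · exact i.elim0
    rw [h0, Set.ncard_empty]
    simp
  obtain ⟨c, hc⟩ : ∃ c : ℝ, c = K * (T : ℝ) ^ (1 - δ) := ⟨_, rfl⟩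
  have hc0 : 0 ≤ c := by rw [hc]; positivity
  rw [← hc] at hQ
  simp only [← hc] at hP
  obtain ⟨U, hU⟩ : ∃ U, U = Fintype.piFinset (fun _ : Fin k => range (T + 1)) := ⟨_, rfl⟩
  have hUm : ∀ τ, τ ∈ U ↔ ∀ i, τ i ≤ T := by
    intro τ
    rw [hU, Fintype.mem_piFinset]
    exact forall_congr' fun i => by rw [mem_range]; omega
  have hset : {τ : Fin k → ℕ | (∀ i, τ i ≤ T) ∧ ((∃ i j, i ≠ j ∧ P (τ i) (τ j)) ∨
      ∃ i, Q (τ i))} ⊆ ↑((univ.biUnion fun q : Fin k × Fin k =>
        if q.1 = q.2 then ∅ else U.filter fun τ => P (τ q.1) (τ q.2)) ∪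
        univ.biUnion fun i : Fin k => U.filter fun τ => Q (τ i)) := by
    rintro τ ⟨h1, ⟨i, j, hij, h2⟩ | ⟨i, h2⟩⟩
    · rw [mem_coe, mem_union]
      left
      rw [mem_biUnion]
      refine ⟨(i, j), mem_univ _, ?_⟩
      rw [if_neg hij, mem_filter]
      exact ⟨(hUm τ).2 h1, h2⟩
    · rw [mem_coe, mem_union]
      right
      rw [mem_biUnion]
      exact ⟨i, mem_univ _, mem_filter.2 ⟨(hUm τ).2 h1, h2⟩⟩
  have h1 := Set.ncard_le_ncard hset (Finset.finite_toSet _)
  rw [Set.ncard_coe_finset] at h1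
  have h2 : ∀ q : Fin k × Fin k, (((if q.1 = q.2 then ∅ else
      U.filter fun τ => P (τ q.1) (τ q.2)) : Finset (Fin k → ℕ)).card : ℝ) ≤
      ((T : ℝ) + 1) ^ (k - 1) * c := by
    intro q
    by_cases hq : q.1 = q.2
    · rw [if_pos hq, card_empty]
      simp only [Nat.cast_zero]
      positivity
    · rw [if_neg hq, hU]
      refine cnt T c (fun τ => P (τ q.1) (τ q.2)) q.1 fun σ => ?_
      simp only [Function.update_self, Function.update_of_ne (Ne.symm hq)]
      exact hP (σ q.2)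
  have h3 : ∀ i : Fin k, ((U.filter fun τ => Q (τ i)).card : ℝ) ≤ ((T : ℝ) + 1) ^ (k - 1) * c := by
    intro i
    rw [hU]
    refine cnt T c (fun τ => Q (τ i)) i fun σ => ?_
    simp only [Function.update_self]
    exact hQ
  have h4 : (({τ : Fin k → ℕ | (∀ i, τ i ≤ T) ∧ ((∃ i j, i ≠ j ∧ P (τ i) (τ j)) ∨
      ∃ i, Q (τ i))}.ncard : ℕ) : ℝ) ≤ ((k : ℝ) ^ 2 + k) * (((T : ℝ) + 1) ^ (k - 1) * c) := by
    have h5 : (({τ : Fin k → ℕ | (∀ i, τ i ≤ T) ∧ ((∃ i j, i ≠ j ∧ P (τ i) (τ j)) ∨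
      ∃ i, Q (τ i))}.ncard : ℕ) : ℝ) ≤ ((∑ q : Fin k × Fin k, ((if q.1 = q.2 then ∅ else
      U.filter fun τ => P (τ q.1) (τ q.2)) : Finset (Fin k → ℕ)).card +
        ∑ i : Fin k, (U.filter fun τ => Q (τ i)).card : ℕ) : ℝ) := by
      have := h1.trans ((card_union_le _ _).trans (Nat.add_le_add card_biUnion_le card_biUnion_le))
      exact_mod_cast this
    refine h5.trans ?_
    push_cast
    have h6 := Finset.sum_le_card_nsmul univ _ _ fun q (_ : q ∈ (univ : Finset (Fin k × Fin k))) => h2 q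
    have h7 := Finset.sum_le_card_nsmul univ _ _ fun i (_ : i ∈ (univ : Finset (Fin k))) => h3 i
    rw [card_univ, Fintype.card_prod, Fintype.card_fin, nsmul_eq_mul] at h6
    rw [card_univ, Fintype.card_fin, nsmul_eq_mul] at h7
    push_cast at h6
    linarith
  refine h4.trans ?_
  have h8 : ((T : ℝ) + 1) ^ (k - 1) ≤ 2 ^ (k - 1) * (T : ℝ) ^ (k - 1) := by
    rw [← mul_pow]
    exact pow_le_pow_left₀ (by linarith) (by linarith) _
  have h9 : (T : ℝ) ^ (k - 1) * (T : ℝ) ^ (1 - δ) = (T : ℝ) ^ ((k : ℝ) - δ) := by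
    rw [← Real.rpow_natCast, ← Real.rpow_add hT0]
    congr 1
    rw [Nat.cast_sub hk]
    push_cast
    ring
  calc ((k : ℝ) ^ 2 + k) * (((T : ℝ) + 1) ^ (k - 1) * c) ≤
        ((k : ℝ) ^ 2 + k) * ((2 ^ (k - 1) * (T : ℝ) ^ (k - 1)) * c) :=
        mul_le_mul_of_nonneg_left (mul_le_mul_of_nonneg_right h8 hc0) (by positivity)
    _ = ((k : ℝ) ^ 2 + k) * 2 ^ (k - 1) * K * ((T : ℝ) ^ (k - 1) * (T : ℝ) ^ (1 - δ)) := by
        rw [hc]
        ring
    _ = _ := by rw [h9]

end Pool.Agent.Y889.MT
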